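import Pool.Agent.H29.TOW.S
import Pool.Agent.H53.AVS.CPP
import Mathlib.NumberTheory.NumberField.Completion.FinitePlace

/-!
# TOW, row EXC: there is a completion above every prime
-/

set_option autoImplicit false

namespace Pool.TOW

open Polynomial Pool.HYP Pool.AVS WithZero IsLocalRing IsDedekindDomain Pool.AVS.CPP

namespace Exc49

/-- The completion of a Dedekind domain at a maximal ideal with finite residue field. -/
theorem cpl_of (E : Type) [Field E] (B : Type) [CommRing B] [IsDedekindDomain B] [Algebra B E]
    [IsFractionRing B E] (v : HeightOneSpectrum B) (hfin : Finite (B ⧸ v.asIdeal)) :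
    Cpl E (v.adicCompletion E) (v.adicCompletionIntegers E)
      (algebraMap E (v.adicCompletion E)) := by
  have hv1 : ∀ x : E, Valued.v (algebraMap E (v.adicCompletion E) x) = v.valuation E x :=
    fun x => HeightOneSpectrum.valuedAdicCompletion_eq_valuation' (v := v) x
  obtain ⟨π, hπ⟩ := v.valuation_exists_uniformizer E
  have hπ' : Valued.v (algebraMap E (v.adicCompletion E) π) = exp (-1 : ℤ) := by rw [hv1, hπ]
  have hd := HeightOneSpectrum.denseRange_algebraMap E v
  have hdense : ∀ (z : v.adicCompletion E) (N : ℕ), ∃ x : E,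
      Valued.v (z - algebraMap E (v.adicCompletion E) x) ≤ exp (-(N : ℤ)) := by
    intro z N
    obtain ⟨y, hy⟩ := hd.exists_mem_open (isOpen_interior
      (s := {y : v.adicCompletion E | Valued.v (y - z) ≤ exp (-(N : ℤ))}))
      ⟨z, mem_interior_iff_mem_nhds.2 (ball_mem_nhds _ hπ' z N)⟩
    refine ⟨y, ?_⟩
    have h1 := interior_subset hy
    rw [Set.mem_ofPred_eq] at h1
    rwa [Valuation.map_sub_swap]
  have hπO : algebraMap E (v.adicCompletion E) π ∈ OO (v.adicCompletion E) := by
    rw [mem_OO, hπ', ← exp_zero, exp_le_exp]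
    omega
  refine ⟨inferInstance, adicComplete ⟨_, hπO⟩ hπ', ?_, ?_⟩
  · -- the residue field
    change Finite (ResidueField (OO (v.adicCompletion E)))
    have hb : ∀ b : B, Valued.v (algebraMap E (v.adicCompletion E) (algebraMap B E b)) ≤ 1 := by
      intro b
      rw [hv1]
      exact v.valuation_le_one b
    have hb1 : ∀ b : B, Valued.v (algebraMap E (v.adicCompletion E) (algebraMap B E b)) < 1 ↔
        b ∈ v.asIdeal := by
      intro b
      rw [hv1]
      exact v.valuation_lt_one_iff_mem b
    set out : B ⧸ v.asIdeal → B := fun t => (Ideal.Quotient.mk_surjective t).choose with hout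
    have hout' : ∀ t, Ideal.Quotient.mk v.asIdeal (out t) = t := fun t =>
      (Ideal.Quotient.mk_surjective t).choose_spec
    refine Finite.of_surjective (fun t : B ⧸ v.asIdeal => residue (OO (v.adicCompletion E))
      ⟨algebraMap E (v.adicCompletion E) (algebraMap B E (out t)), hb _⟩) ?_
    intro r
    obtain ⟨z, rfl⟩ := residue_surjective r
    obtain ⟨x, hx⟩ := hdense (z : v.adicCompletion E) 1
    have hx' : Valued.v ((z : v.adicCompletion E) - algebraMap E _ x) < 1 := by
      rw [lt_one_iff]
      simpa using hx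
    have hxI : v.valuation E x ≤ 1 := by
      rw [← hv1]
      have h3 : algebraMap E (v.adicCompletion E) x =
        (z : v.adicCompletion E) - ((z : v.adicCompletion E) - algebraMap E _ x) := by ring
      have h4 : Valued.v (z : v.adicCompletion E) ≤ 1 := z.2
      rw [h3]
      exact (Valuation.map_sub _ _ _).trans (max_le h4 hx'.le)
    obtain ⟨b, hb2⟩ := HeightOneSpectrum.exists_valuation_sub_lt_of_integer v hxI 1
    refine ⟨Ideal.Quotient.mk _ b, ?_⟩
    have hb3 : Valued.v (algebraMap E (v.adicCompletion E)
        (algebraMap B E (out (Ideal.Quotient.mk _ b) - b))) < 1 := by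
      rw [hb1, ← Ideal.Quotient.eq, hout']
    rw [← sub_eq_zero, ← map_sub, residue_eq_zero_iff, mem_max_iff]
    have h5 : (((⟨algebraMap E (v.adicCompletion E)
        (algebraMap B E (out (Ideal.Quotient.mk _ b))), hb _⟩ : OO (v.adicCompletion E)) - z :
        OO (v.adicCompletion E)) : v.adicCompletion E) =
        algebraMap E (v.adicCompletion E) (algebraMap B E (out (Ideal.Quotient.mk _ b) - b)) +
        (algebraMap E (v.adicCompletion E) (algebraMap B E b - x) -
          ((z : v.adicCompletion E) - algebraMap E _ x)) := by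
      rw [map_sub, map_sub, map_sub]
      change algebraMap E (v.adicCompletion E)
        (algebraMap B E (out (Ideal.Quotient.mk _ b))) - (z : v.adicCompletion E) = _
      ring
    rw [h5]
    refine lt_of_le_of_lt (Valuation.map_add _ _ _) (max_lt hb3 ?_)
    refine lt_of_le_of_lt (Valuation.map_sub _ _ _) (max_lt ?_ hx')
    rw [hv1]
    simpa using hb2
  · -- density
    intro z a ha
    have hva : Valued.v a ≠ 0 := (_root_.map_ne_zero _).2 ha
    obtain ⟨k, hk⟩ : ∃ k : ℤ, Valued.v a = exp k := ⟨log _, (exp_log hva).symm⟩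
    obtain ⟨x, hx⟩ := hdense z (-k).toNat
    refine ⟨x, ?_⟩
    change Valued.v ((z - algebraMap E (v.adicCompletion E) x) / a) ≤ 1
    rw [map_div₀]
    refine (div_le_one₀ (zero_lt_iff.2 hva)).2 (hx.trans ?_)
    rw [hk, exp_le_exp]
    omega

end Exc49

open Exc49 in
theorem exc : EXCStmt := by
  intro F _ _ h2 P hPm hPi E _ _ hfd hgal
  let : Algebra F[X] E :=
    ((algebraMap (RatFunc F) E).comp (algebraMap F[X] (RatFunc F))).toAlgebra
  have : IsScalarTower F[X] (RatFunc F) E := IsScalarTower.of_algebraMap_eq fun x => rfl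
  have hded : IsDedekindDomain (integralClosure F[X] E) :=
    integralClosure.isDedekindDomain F[X] (RatFunc F) E
  have hfr : IsFractionRing (integralClosure F[X] E) E :=
    integralClosure.isFractionRing_of_finite_extension (RatFunc F) E
  have hmf : Module.Finite F[X] (integralClosure F[X] E) :=
    IsIntegralClosure.finite F[X] (RatFunc F) E (integralClosure F[X] E)
  have hfaith : FaithfulSMul F[X] E := by
    rw [faithfulSMul_iff_algebraMap_injective]
    exact (algebraMap (RatFunc F) E).injective.comp (IsFractionRing.injective F[X] (RatFunc F))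
  have hPmax : (Ideal.span {P} : Ideal F[X]).IsMaximal :=
    PrincipalIdealRing.isMaximal_of_irreducible hPi
  obtain ⟨Q, hQmax, hQ⟩ := Ideal.exists_maximal_ideal_liesOver_of_isIntegral
    (S := integralClosure F[X] E) (Ideal.span {P})
  have hQP : algebraMap F[X] (integralClosure F[X] E) P ∈ Q := by
    have h1 : P ∈ (Ideal.span {P} : Ideal F[X]) := Ideal.mem_span_singleton_self P
    rw [hQ.over] at h1
    exact h1
  have hinj : Function.Injective (algebraMap F[X] (integralClosure F[X] E)) :=
    FaithfulSMul.algebraMap_injective _ _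
  have hQ0 : Q ≠ ⊥ := by
    rintro rfl
    rw [Ideal.mem_bot, map_eq_zero_iff _ hinj] at hQP
    exact hPm.ne_zero hQP
  let v : HeightOneSpectrum (integralClosure F[X] E) := ⟨Q, hQmax.isPrime, hQ0⟩
  have hfin : Finite (integralClosure F[X] E ⧸ v.asIdeal) := by
    change Finite (integralClosure F[X] E ⧸ Q)
    have : Finite (F[X] ⧸ (Ideal.span {P} : Ideal F[X])) := by
      have := degreeLT_finite F P.natDegree
      refine Finite.of_surjective (fun t : degreeLT F P.natDegree =>
        Ideal.Quotient.mk (Ideal.span {P}) (t : F[X])) ?_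
      intro r
      obtain ⟨a, rfl⟩ := Ideal.Quotient.mk_surjective r
      refine ⟨⟨a %ₘ P, ?_⟩, ?_⟩
      · rw [mem_degreeLT, ← degree_eq_natDegree hPm.ne_zero]
        exact degree_modByMonic_lt _ hPm
      · rw [Ideal.Quotient.eq, Ideal.mem_span_singleton]
        refine ⟨-(a /ₘ P), ?_⟩
        have := modByMonic_add_div a P
        change a %ₘ P - a = P * -(a /ₘ P)
        linear_combination this
    have : Module.Finite (F[X] ⧸ (Ideal.span {P} : Ideal F[X])) (integralClosure F[X] E ⧸ Q) :=
      inferInstance
    exact Module.finite_of_finite (F[X] ⧸ (Ideal.span {P} : Ideal F[X]))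
  refine ⟨v.adicCompletion E, inferInstance, v.adicCompletionIntegers E,
    algebraMap E (v.adicCompletion E), cpl_of E _ v hfin, ?_⟩
  have hv1 : Valued.v (algebraMap E (v.adicCompletion E) (pE E P)) < 1 := by
    have h3 := HeightOneSpectrum.valuedAdicCompletion_eq_valuation' (v := v) (K := E) (pE E P)
    refine lt_of_eq_of_lt h3 ?_
    have h4 : pE E P = algebraMap (integralClosure F[X] E) E
      (algebraMap F[X] (integralClosure F[X] E) P) := rfl
    rw [h4, v.valuation_lt_one_iff_mem]
    exact hQP
  have hpE : pE E P ≠ 0 := by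
    have h5 : Function.Injective (algebraMap F[X] E) := FaithfulSMul.algebraMap_injective _ _
    intro h6
    exact hPm.ne_zero (h5 (h6.trans (map_zero _).symm))
  have hv0 : Valued.v (algebraMap E (v.adicCompletion E) (pE E P)) ≠ 0 := by
    rw [_root_.map_ne_zero, _root_.map_ne_zero]
    exact hpE
  refine ⟨hv1.le, ?_⟩
  intro h6
  have h7 : Valued.v (algebraMap E (v.adicCompletion E) (pE E P))⁻¹ ≤ 1 := h6
  rw [map_inv₀] at h7
  have h8 := (inv_le_one₀ (zero_lt_iff.2 hv0)).1 h7
  exact absurd hv1 (not_lt.2 h8)

end Pool.TOW
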