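import Pool.Agent.H29.TOW.S

/-!
# TOW, rows LOCC and MEMP: the ring of a place
-/

set_option autoImplicit false

namespace Pool.TOW

open Polynomial Pool.HYP Pool.AVS

namespace Loc49

/-- Images of nonzero elements of a finite field are roots of unity. -/
theorem inv_mem_of_finite {F : Type} [Field F] [Finite F] {L : Type} [Field L]
    (O : ValuationSubring L) (φ : F →+* L) (c : F) : φ c ∈ O := by
  classical
  have := Fintype.ofFinite F
  by_cases hc : c = 0
  · rw [hc, map_zero]
    exact O.zero_mem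
  · rcases O.mem_or_inv_mem (φ c) with h | h
    · exact h
    · have h1 : c ^ (Fintype.card F - 1) = 1 := FiniteField.pow_card_sub_one_eq_one c hc
      have hcard : 1 < Fintype.card F := Fintype.one_lt_card
      obtain ⟨n, hn⟩ : ∃ n, Fintype.card F - 1 = n + 1 := ⟨Fintype.card F - 2, by omega⟩
      have h2 : φ c = (φ c)⁻¹ ^ n := by
        have h3 : φ c ^ (n + 1) = 1 := by rw [← hn, ← map_pow, h1, map_one]
        have h4 : φ c ≠ 0 := (_root_.map_ne_zero φ).2 hc
        rw [inv_pow]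
        field_simp
        rw [← h3]
        ring
      rw [h2]
      exact pow_mem h n

end Loc49

open Loc49 in
theorem memp : MEMPStmt := by
  intro F _ _ P hPm hPi L _ O ι hP hP'
  have hC : ∀ c : F, ι (RatFunc.C c) ∈ O := fun c => inv_mem_of_finite O (ι.comp RatFunc.C) c
  have hdeg : 0 < P.natDegree := hPi.natDegree_pos
  -- `t` is in `O`
  have hX : ι (rf (X : F[X])) ∈ O := by
    set φ : F →+* O := (ι.comp RatFunc.C).codRestrict O.toSubring (fun c => hC c) with hφ
    have hφv : ∀ c : F, ((φ c : O) : L) = ι (RatFunc.C c) := fun c => rfl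
    set p : O := ⟨ι (rf P), hP⟩ with hp
    have hmon : (P.map φ - C p).Monic := by
      apply Polynomial.Monic.sub_of_left (hPm.map φ)
      refine lt_of_le_of_lt degree_C_le ?_
      rw [hPm.degree_map, degree_eq_natDegree hPm.ne_zero]
      exact_mod_cast hdeg
    have hroot : Polynomial.eval₂ (algebraMap O L) (ι (rf (X : F[X]))) (P.map φ - C p) = 0 := by
      rw [eval₂_sub, eval₂_C, eval₂_map]
      have h1 : (algebraMap O L).comp φ = ι.comp ((algebraMap F[X] (RatFunc F)).comp C) := by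
        ext c
        change ι (RatFunc.C c) = ι (algebraMap F[X] (RatFunc F) (C c))
        rw [RatFunc.algebraMap_C]
      rw [h1]
      have h2 : Polynomial.eval₂ (ι.comp ((algebraMap F[X] (RatFunc F)).comp C))
          (ι (rf (X : F[X]))) P = ι (rf P) := by
        have h3 := Polynomial.hom_eval₂ P (C : F →+* F[X])
          (ι.comp (algebraMap F[X] (RatFunc F))) X
        rw [eval₂_C_X] at h3
        exact h3.symm
      rw [h2]
      change ι (rf P) - ι (rf P) = 0
      rw [sub_self]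
    have hint : IsIntegral O (ι (rf (X : F[X]))) := ⟨_, hmon, hroot⟩
    obtain ⟨y, hy⟩ := (IsIntegrallyClosed.isIntegral_iff (R := O) (K := L)).1 hint
    rw [← hy]
    exact y.2
  have hpoly : ∀ p : F[X], ι (rf p) ∈ O := by
    intro p
    induction p using Polynomial.induction_on' with
    | add p q hp hq =>
      rw [rf, map_add, map_add]
      exact add_mem hp hq
    | monomial n c =>
      rw [← C_mul_X_pow_eq_monomial, rf, map_mul, map_mul, map_pow, map_pow]
      refine mul_mem ?_ (pow_mem hX n)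
      rw [RatFunc.algebraMap_C]
      exact hC c
  -- units
  set φ : F[X] →+* O := (ι.comp (algebraMap F[X] (RatFunc F))).codRestrict O.toSubring
    (fun p => hpoly p) with hφ
  have hφv : ∀ p : F[X], ((φ p : O) : L) = ι (rf p) := fun c => rfl
  have hunit : ∀ z : O, IsUnit z ↔ ((z : L))⁻¹ ∈ O ∧ (z : L) ≠ 0 := by
    intro z
    constructor
    · rintro ⟨u, rfl⟩
      have h1 : ((u : O) : L) * ((u⁻¹ : Oˣ) : O) = 1 := by
        have := congrArg (fun z : O => (z : L)) u.mul_inv
        exact this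
      refine ⟨?_, left_ne_zero_of_mul_eq_one h1⟩
      rw [inv_eq_of_mul_eq_one_right h1]
      exact ((u⁻¹ : Oˣ) : O).2
    · rintro ⟨h1, h2⟩
      exact IsUnit.of_mul_eq_one ⟨_, h1⟩ (Subtype.ext (mul_inv_cancel₀ h2))
  have hinj : ∀ p : F[X], p ≠ 0 → ι (rf p) ≠ 0 := by
    intro p hp
    rw [_root_.map_ne_zero]
    exact RatFunc.algebraMap_ne_zero hp
  have hPn : ¬ IsUnit (φ P) := by
    intro h
    exact hP' ((hunit _).1 h).1
  have hd : ∀ d : F[X], ¬ P ∣ d → (ι (rf d))⁻¹ ∈ O := by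
    intro d hd
    obtain ⟨u, w, huw⟩ := (hPi.coprime_iff_not_dvd.2 hd)
    have h1 : φ u * φ P + φ w * φ d = 1 := by
      rw [← map_mul, ← map_mul, ← map_add, huw, map_one]
    have h2 : IsUnit (φ d) := by
      by_contra h3
      have h4 : φ u * φ P + φ w * φ d ∈ IsLocalRing.maximalIdeal O := by
        refine Ideal.add_mem _ (Ideal.mul_mem_left _ _ ?_) (Ideal.mul_mem_left _ _ ?_)
        · exact (IsLocalRing.mem_maximalIdeal _).2 hPn
        · exact (IsLocalRing.mem_maximalIdeal _).2 h3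
      rw [h1] at h4
      exact (IsLocalRing.mem_maximalIdeal _).1 h4 isUnit_one
    exact ((hunit _).1 h2).1
  intro x
  have hx : ι x = ι (rf x.num) * (ι (rf x.denom))⁻¹ := by
    rw [← div_eq_mul_inv, ← map_div₀, rf, rf, RatFunc.num_div_denom]
  constructor
  · intro hxO h1
    have h1' : P ∣ x.denom := h1
    have h2 : ¬ P ∣ x.num := fun h =>
      hPi.not_isUnit ((RatFunc.isCoprime_num_denom x).isUnit_of_dvd' h h1')
    obtain ⟨e, he⟩ := h1'
    have h3 : ι (rf x.num) = ι x * (ι (rf P) * ι (rf e)) := by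
      rw [hx, ← map_mul ι, ← map_mul (algebraMap F[X] (RatFunc F)), ← he, inv_mul_cancel_right₀]
      exact hinj _ x.denom_ne_zero
    have h4 := hd _ h2
    apply hP'
    have hP0 : ι (rf P) ≠ 0 := hinj _ hPm.ne_zero
    have hnum0 : ι (rf x.num) ≠ 0 := by
      apply hinj
      rintro h
      exact h2 (h ▸ dvd_zero _)
    have h5 : (ι (rf P))⁻¹ = ι x * ι (rf e) * (ι (rf x.num))⁻¹ := by
      rw [h3] at hnum0 ⊢
      have hx0 : ι x ≠ 0 := left_ne_zero_of_mul hnum0
      have he0 : ι (rf e) ≠ 0 := right_ne_zero_of_mul (right_ne_zero_of_mul hnum0)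
      field_simp
    rw [h5]
    exact mul_mem (mul_mem hxO (hpoly e)) h4
  · intro hx'
    rw [hx]
    exact mul_mem (hpoly _) (hd _ hx')

open Loc49 in
theorem locc : LOCCStmt := by
  intro F _ _ h2 E _ _ L _ O ι hcpl π hπ hπ' hunif
  have hdvr := hcpl.dvr
  have hπ0 : π ≠ 0 := by
    rintro rfl
    apply hπ'
    rw [inv_zero]
    exact O.zero_mem
  set φ : F →+* L := ι.comp ((algebraMap (RatFunc F) E).comp RatFunc.C) with hφ
  have hφ2 : φ 2 = 2 := map_ofNat _ _
  have hφ2' : φ (2⁻¹) = 2⁻¹ := by rw [map_inv₀, hφ2]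
  have h20 : (2 : L) ≠ 0 := by
    rw [← hφ2]
    exact (_root_.map_ne_zero φ).2 h2
  have hunit : ∀ z : O, IsUnit z ↔ ((z : L))⁻¹ ∈ O ∧ (z : L) ≠ 0 := by
    intro z
    constructor
    · rintro ⟨u, rfl⟩
      have h1 : ((u : O) : L) * ((u⁻¹ : Oˣ) : O) = 1 := by
        have := congrArg (fun z : O => (z : L)) u.mul_inv
        exact this
      refine ⟨?_, left_ne_zero_of_mul_eq_one h1⟩
      rw [inv_eq_of_mul_eq_one_right h1]
      exact ((u⁻¹ : Oˣ) : O).2
    · rintro ⟨h1, h2⟩
      exact IsUnit.of_mul_eq_one ⟨_, h1⟩ (Subtype.ext (mul_inv_cancel₀ h2))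
  have hmax : IsLocalRing.maximalIdeal O = Ideal.span {(⟨π, hπ⟩ : O)} := by
    apply le_antisymm
    · intro z hz
      rw [Ideal.mem_span_singleton]
      have hz1 : ¬ IsUnit z := (IsLocalRing.mem_maximalIdeal _).1 hz
      by_cases hz0 : (z : L) = 0
      · have : z = 0 := Subtype.ext hz0
        rw [this]
        exact dvd_zero _
      · have hz2 : (z : L)⁻¹ ∉ O := fun h => hz1 ((hunit z).2 ⟨h, hz0⟩)
        refine ⟨⟨(z : L) / π, hunif z z.2 hz2⟩, Subtype.ext ?_⟩
        change (z : L) = π * ((z : L) / π)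
        field_simp
    · rw [Ideal.span_le, Set.singleton_subset_iff]
      exact (IsLocalRing.mem_maximalIdeal _).2 fun h => hπ' ((hunit _).1 h).1
  have hirr : Irreducible (⟨π, hπ⟩ : O) := IsDiscreteValuationRing.irreducible_of_span_eq_maximalIdeal
    _ (fun h => hπ0 (congrArg (fun z : O => (z : L)) h)) hmax
  have harch : ∀ z : O, z ≠ 0 → ∃ n : ℤ, (z : L) / π ^ n ∈ O ∧ ((z : L) / π ^ n)⁻¹ ∈ O := by
    intro z hz
    obtain ⟨n, u, hu⟩ := IsDiscreteValuationRing.eq_unit_mul_pow_irreducible hz hirr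
    refine ⟨n, ?_⟩
    have h1 : (z : L) / π ^ (n : ℤ) = ((u : O) : L) := by
      rw [hu]
      change ((u : O) : L) * π ^ n / π ^ (n : ℤ) = _
      rw [zpow_natCast]
      field_simp
    rw [h1]
    exact ⟨(u : O).2, ((hunit _).1 u.isUnit).1⟩
  refine ⟨⟨h20, ?_⟩, hπ0, hπ, ?_, ?_, ?_, hcpl.fin⟩
  · rw [← hφ2']
    exact inv_mem_of_finite O φ _
  · intro x hx hx0
    refine ⟨hunif x hx, fun h h' => hπ' ?_⟩
    have : π⁻¹ = x⁻¹ * (x / π) := by field_simp
    rw [this]
    exact mul_mem h' h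
  · intro x hx0
    rcases O.mem_or_inv_mem x with h | h
    · exact harch ⟨x, h⟩ (fun h' => hx0 (congrArg (fun z : O => (z : L)) h'))
    · obtain ⟨n, hn1, hn2⟩ := harch ⟨x⁻¹, h⟩
        (fun h' => inv_ne_zero hx0 (congrArg (fun z : O => (z : L)) h'))
      refine ⟨-n, ?_⟩
      have h1 : x / π ^ (-n) = (x⁻¹ / π ^ n)⁻¹ := by
        rw [zpow_neg]
        field_simp
      rw [h1, inv_inv]
      exact ⟨hn2, hn1⟩
  · have := hcpl.complete
    have : HenselianRing O (IsLocalRing.maximalIdeal O) := inferInstance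
    exact
      { is_henselian := fun f hf a₀ h₁ h₂ =>
          HenselianRing.is_henselian f hf a₀ h₁ (h₂.map (Ideal.Quotient.mk _)) }

end Pool.TOW
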